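import Pool.Agent.Lib_MP_bfd926_ab.AFinC

/-!
# The Hecke operator `T₂` in level one, weights `2 ^ m - 2`

In the weights `k = 2 ^ m - 2` every factor over `ℚ` of the characteristic polynomial of the Hecke operator
`T₂` on `S_k(SL₂(ℤ))`, `(T₂ f)(z) = 2 ^ (k - 1) f(2 z) + (f(z / 2) + f((z + 1) / 2)) / 2`, has even degree;
equivalently every `T₂`-stable rational subspace of `S_k` has even dimension.
-/

open UpperHalfPlane
open scoped MatrixGroups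

namespace Pool.Agent.Results.MP_bfd926_nt.HeckeTwoEvenDegree

theorem result (m k : ℕ) (hm : 3 ≤ m) (hk : k + 2 = 2 ^ m) :
    ∃ (_ : FiniteDimensional ℂ (CuspForm 𝒮ℒ (k : ℤ))) (T : Module.End ℂ (CuspForm 𝒮ℒ (k : ℤ))),
      (∀ (f : CuspForm 𝒮ℒ (k : ℤ)) (z : ℍ),
        T f z = 2 ^ ((k : ℤ) - 1) * f (ofComplex (2 * z)) +
          (f (ofComplex (z / 2)) + f (ofComplex ((z + 1) / 2))) / 2) ∧
      (∀ Q : Polynomial ℚ, Q.map (algebraMap ℚ ℂ) ∣ T.charpoly → Even Q.natDegree) ∧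
      (letI : Module ℚ (CuspForm 𝒮ℒ (k : ℤ)) :=
          Module.compHom (CuspForm 𝒮ℒ (k : ℤ)) (algebraMap ℚ ℂ)
        ∀ W : Submodule ℚ (CuspForm 𝒮ℒ (k : ℤ)),
          (∀ f ∈ W, ∀ n, ∃ q : ℚ, (qExpansion 1 f).coeff n = (q : ℂ)) →
            (∀ f ∈ W, T f ∈ W) → Even (Module.finrank ℚ W)) := by
  obtain ⟨hfin, T, h1, -, h3, h4, -⟩ := MT2.thmC m k hm hk
  exact ⟨hfin, T, h1, h3, h4⟩

end Pool.Agent.Results.MP_bfd926_nt.HeckeTwoEvenDegree
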