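import Pool.Agent.Lib_MP_bfd926_ml.MLFin

/-!
# The number of rational factors of `T₂` in level one, all weights

For every even integer `k ≥ 0`, the characteristic polynomial of the Hecke operator `T₂` on
`S_k(SL₂(ℤ))`, `(T₂ f)(z) = 2 ^ (k - 1) f(2 z) + (f(z / 2) + f((z + 1) / 2)) / 2`, has at most
`(dim S_k + 961) / 10` irreducible factors over `ℚ`, counted with multiplicity, and every strictly
increasing chain of rational subspaces of `S_k` stable under `T₂` has length at most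
`(dim S_k + 961) / 10`; in particular there are at most that many Galois orbits of eigenforms.
-/

open UpperHalfPlane
open scoped MatrixGroups

namespace Pool.Agent.Results.MP_bfd926_nt.HeckeTwoFewFactors

theorem result (k : ℕ) (hk : Even k) :
    ∃ (_ : FiniteDimensional ℂ (CuspForm 𝒮ℒ (k : ℤ))) (T : Module.End ℂ (CuspForm 𝒮ℒ (k : ℤ))),
      (∀ (f : CuspForm 𝒮ℒ (k : ℤ)) (z : ℍ),
        T f z = 2 ^ ((k : ℤ) - 1) * f (ofComplex (2 * z)) +
          (f (ofComplex (z / 2)) + f (ofComplex ((z + 1) / 2))) / 2) ∧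
      (∀ s : Multiset (Polynomial ℚ), (∀ q ∈ s, 0 < q.natDegree) →
        s.prod.map (algebraMap ℚ ℂ) ∣ T.charpoly →
          10 * Multiset.card s ≤ Module.finrank ℂ (CuspForm 𝒮ℒ (k : ℤ)) + 961) ∧
      (letI : Module ℚ (CuspForm 𝒮ℒ (k : ℤ)) :=
          Module.compHom (CuspForm 𝒮ℒ (k : ℤ)) (algebraMap ℚ ℂ)
        ∀ (r : ℕ) (W : Fin (r + 1) → Submodule ℚ (CuspForm 𝒮ℒ (k : ℤ))), StrictMono W →
          (∀ i, ∀ f ∈ W i, ∀ n, ∃ q : ℚ, (qExpansion 1 f).coeff n = (q : ℂ)) →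
            (∀ i, ∀ f ∈ W i, T f ∈ W i) →
              10 * r ≤ Module.finrank ℂ (CuspForm 𝒮ℒ (k : ℤ)) + 961) :=
  ML.thmE k hk

end Pool.Agent.Results.MP_bfd926_nt.HeckeTwoFewFactors
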