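import Pool.Agent.Lib_MP_bfd926_fm.FThm

/-!
# A large irreducible factor of the Hecke polynomial of `T₂` in level one

For every even integer `k ≥ 10 ^ 24`, the characteristic polynomial of the Hecke operator `T₂` on
`S_k(SL₂(ℤ))`, `(T₂ f)(z) = 2 ^ (k - 1) f(2 z) + (f(z / 2) + f((z + 1) / 2)) / 2`, has an irreducible
factor over `ℚ` of degree at least `10 ^ 6`.
-/

open UpperHalfPlane
open scoped MatrixGroups

namespace Pool.Agent.Results.MP_bfd926_nt.HeckeTwoLargeOrbit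

theorem result (k : ℕ) (hk : Even k) (hk0 : 10 ^ 24 ≤ k) :
    ∃ (_ : FiniteDimensional ℂ (CuspForm 𝒮ℒ (k : ℤ))) (T : Module.End ℂ (CuspForm 𝒮ℒ (k : ℤ))),
      (∀ (f : CuspForm 𝒮ℒ (k : ℤ)) (z : ℍ),
        T f z = 2 ^ ((k : ℤ) - 1) * f (ofComplex (2 * z)) +
          (f (ofComplex (z / 2)) + f (ofComplex ((z + 1) / 2))) / 2) ∧
      ∃ Q : Polynomial ℚ, Irreducible Q ∧ Q.map (algebraMap ℚ ℂ) ∣ T.charpoly ∧
        10 ^ 6 ≤ Q.natDegree :=
  MT2.thmF k hk hk0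

end Pool.Agent.Results.MP_bfd926_nt.HeckeTwoLargeOrbit
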