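import Pool.Agent.Lib_MP_bfd926_dd.DFin

/-!
# The rational factors of odd degree of the Hecke polynomial of `T₂` in level one

Let `2 ^ r` divide `k + 2` or `k - 4`, and let `Q₁, …, Q_n` be rational polynomials of odd degree whose product
divides the characteristic polynomial of the Hecke operator `T₂` on `S_k(SL₂(ℤ))`,
`(T₂ f)(z) = 2 ^ (k - 1) f(2 z) + (f(z / 2) + f((z + 1) / 2)) / 2`. Then
`2 ^ r * n ≤ 28 * dim S_k + 2 ^ r * (5 * log₂ k + 7)`.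
-/

open UpperHalfPlane
open scoped MatrixGroups

namespace Pool.Agent.Results.MP_bfd926_nt.HeckeTwoOddFactors

theorem result (r k : ℕ) (hk : (2 : ℤ) ^ r ∣ (k : ℤ) + 2 ∨ (2 : ℤ) ^ r ∣ (k : ℤ) - 4) :
    ∃ (_ : FiniteDimensional ℂ (CuspForm 𝒮ℒ (k : ℤ))) (T : Module.End ℂ (CuspForm 𝒮ℒ (k : ℤ))),
      (∀ (f : CuspForm 𝒮ℒ (k : ℤ)) (z : ℍ),
        T f z = 2 ^ ((k : ℤ) - 1) * f (ofComplex (2 * z)) +
          (f (ofComplex (z / 2)) + f (ofComplex ((z + 1) / 2))) / 2) ∧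
      ∀ s : Multiset (Polynomial ℚ), (∀ Q ∈ s, Odd Q.natDegree) →
        s.prod.map (algebraMap ℚ ℂ) ∣ T.charpoly →
          2 ^ r * s.card ≤ 28 * Module.finrank ℂ (CuspForm 𝒮ℒ (k : ℤ)) +
            2 ^ r * (5 * Nat.log 2 k + 7) :=
  MT2.thmD r k hk

end Pool.Agent.Results.MP_bfd926_nt.HeckeTwoOddFactors
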